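import Mathlib
import Pool.Agent.X4.SU.Main
import Pool.Agent.X4.SU.Rank

set_option autoImplicit false

/-!
# The number fields in which only finitely many positive integers are sums of `m` units

`𝒩_{K,m}` is finite if and only if every subfield `E` of `K` of degree at most `m` all of whose
conjugates are contained in `K` is the field of rational numbers or an imaginary quadratic field.
-/

namespace Pool.Agent.Results.MP_c80192_nt.FiniteSumsOfUnits

open NumberField Module Pool.Agent.X4.SU

/-- the set `𝒩_{K,m}` of the positive integers which are sums of `m` units of `𝓞 K` -/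
def N (K : Type) [Field K] [NumberField K] (m : ℕ) : Set ℕ :=
  {n | 0 < n ∧ ∃ u : Fin m → (𝓞 K)ˣ, (n : 𝓞 K) = ∑ i, (u i : 𝓞 K)}

/-- the conjugates of the elements of the subfield `E` of `K` lie in `K` -/
def ConjugatesIn (K : Type) [Field K] [NumberField K] (E : IntermediateField ℚ K) : Prop :=
  ∀ x : E, ((minpoly ℚ x).map (algebraMap ℚ K)).Splits

/-- **Determination of the number fields `K` for which `𝒩_{K,m}` is finite.** -/
theorem result (K : Type) [Field K] [NumberField K] (m : ℕ) :
    ((N K m).Finite ↔ ∀ E : IntermediateField ℚ K, finrank ℚ E ≤ m → ConjugatesIn K E →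
      finrank ℚ E = 1 ∨ (finrank ℚ E = 2 ∧ IsTotallyComplex E)) ∧
    ((N K m).Finite ↔ ∀ E : IntermediateField ℚ K, finrank ℚ E ≤ m → ConjugatesIn K E →
      Finite (𝓞 E)ˣ) := by
  have h1 := main (K := K) m
  have h2 : (N K m).Finite ↔ ¬ (sumsOfUnits K m).Infinite := (not_not (a := (N K m).Finite)).symm
  have h3 : (N K m).Finite ↔ ∀ E : IntermediateField ℚ K, finrank ℚ E ≤ m → ConjugatesIn K E →
      Finite (𝓞 E)ˣ := by
    rw [h2, h1]
    constructor
    · intro h E hE1 hE2
      by_contra hcon
      exact h ⟨E, hE1, hE2, not_finite_iff_infinite.1 hcon⟩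
    · rintro h ⟨E, hE1, hE2, hE3⟩
      have := h E hE1 hE2
      exact not_finite (𝓞 E)ˣ
  refine ⟨?_, h3⟩
  rw [h3]
  refine forall_congr' fun E => forall_congr' fun _ => forall_congr' fun _ => ?_
  rw [← not_infinite_iff_finite, infinite_units_iff E, not_not]

end Pool.Agent.Results.MP_c80192_nt.FiniteSumsOfUnits
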